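import Pool.Agent.H43.Box3

set_option autoImplicit false

namespace Pool.Agent.Results.MP_ccca26_co.NotMult
open Pool.Agent.H43.Box Sum

/-- The categorical (tensor) product of graphs. -/
def tensor {α β : Type} (G : SimpleGraph α) (H : SimpleGraph β) : SimpleGraph (α × β) where
  Adj p q := G.Adj p.1 q.1 ∧ H.Adj p.2 q.2
  symm := ⟨fun _ _ h => ⟨h.1.symm, h.2.symm⟩⟩
  loopless := ⟨fun _ h => G.irrefl h.1⟩

/-- The polyhedral complex `Hom(K₂, K)`: pairs of points of the simplex on the vertex set whose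
supports are completely joined in `K`. -/
def Box {V : Type} [Fintype V] (K : SimpleGraph V) : Set ((V → ℝ) × (V → ℝ)) :=
  {p | p.1 ∈ stdSimplex ℝ V ∧ p.2 ∈ stdSimplex ℝ V ∧ ∀ u v, p.1 u ≠ 0 → p.2 v ≠ 0 → K.Adj u v}

/-- The free involution of `Hom(K₂, K)`. -/
def swap {V : Type} [Fintype V] (K : SimpleGraph V) (p : Box K) : Box K :=
  ⟨(p.1.2, p.1.1), p.2.2.1, p.2.1, fun u v hu hv => (p.2.2.2 v u hv hu).symm⟩

def el : List (Fin 11 × Fin 11) :=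
  [(0, 1), (1, 2), (2, 3), (3, 4), (4, 0), (5, 1), (5, 4), (6, 0), (6, 2), (7, 1), (7, 3), (8, 2),
    (8, 4), (9, 3), (9, 0), (10, 5), (10, 6), (10, 7), (10, 8), (10, 9)]

def gr (a b : Fin 11) : Prop := (a, b) ∈ el ∨ (b, a) ∈ el

instance (a b : Fin 11) : Decidable (gr a b) := by unfold gr; infer_instance

def Gr : SimpleGraph (Fin 11) where
  Adj := gr
  symm := ⟨fun _ _ h => Or.symm h⟩
  loopless := ⟨by decide +kernel⟩

def KK : SimpleGraph (VV (Fin 11)) where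
  Adj := ad gr
  symm := ⟨fun _ _ h => ad_symm (fun _ _ h => Or.symm h) h⟩
  loopless := ⟨fun _ h => ad_ne h rfl⟩

lemma tri : ∀ a b c, gr a b → gr b c → ¬ gr a c := by decide +kernel

lemma col4 : ∀ c0 c1 : Fin 3, c0 ≠ c1 → ∀ c2, c1 ≠ c2 → ∀ c3, c2 ≠ c3 → ∀ c4, c3 ≠ c4 → c4 ≠ c0 →
    ∀ c10 c5, c5 ≠ c1 → c5 ≠ c4 → c10 ≠ c5 → ∀ c6, c6 ≠ c0 → c6 ≠ c2 → c10 ≠ c6 →
    ∀ c7, c7 ≠ c1 → c7 ≠ c3 → c10 ≠ c7 → ∀ c8, c8 ≠ c2 → c8 ≠ c4 → c10 ≠ c8 →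
    ∀ c9, c9 ≠ c3 → c9 ≠ c0 → c10 ≠ c9 → False := by decide +kernel

lemma no_tri (u v w : VV (Fin 11)) (h1 : ad gr u v) (h2 : ad gr v w) (h3 : ad gr u w) : False := by
  obtain ⟨a, s | s⟩ := u <;> obtain ⟨b, t | t⟩ := v <;> obtain ⟨c, r | r⟩ := w
  · exact tri _ _ _ h1.2 h2.2 h3.2
  · exact h1.1 (h3.2.symm.trans h2.2)
  · exact h3.1 (h1.2.symm.trans h2.2)
  · exact h3.1 (h1.2.symm.trans h2.2.1)
  · exact h2.1 (h1.2.symm.trans h3.2)
  · exact h2.1 (h1.2.symm.trans h3.2.1)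
  · exact h2.1 (h1.2.1.symm.trans h3.2)
  · exact h2.1 (h1.2.1.symm.trans h3.2.1)

theorem result : ∃ (V A B : Type) (_ : Fintype V) (_ : Fintype A) (_ : Fintype B)
    (K : SimpleGraph V) (G : SimpleGraph A) (H : SimpleGraph B),
    Z2Equiv (swap K) (fun u : Metric.sphere (0 : ℂ) 1 => -u) ∧
    Nonempty (tensor G H →g K) ∧ IsEmpty (G →g K) ∧ IsEmpty (H →g K) := by
  refine ⟨VV (Fin 11), Fin 3, Fin 11, inferInstance, inferInstance, inferInstance, KK, ⊤, Gr, ?_,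
    ⟨⟨fun p => (p.1, inl p.2), fun h => h⟩⟩, ⟨fun f => ?_⟩, ⟨fun f => ?_⟩⟩
  · refine Z2Equiv.trans ?_ (circle (R := gr) (fun _ _ h => Or.symm h) 0)
    exact z2_of_inv
      ⟨fun p => ⟨p.1, p.2.1, p.2.2.1, fun u hu v hv => p.2.2.2 u v hu hv⟩, by fun_prop⟩
      ⟨fun p => ⟨p.1, p.2.1, p.2.2.1, fun u v hu hv => p.2.2.2 u hu v hv⟩, by fun_prop⟩
      (fun _ => rfl) (fun _ => rfl) (fun _ => rfl) (fun _ => rfl)
  · exact no_tri (f 0) (f 1) (f 2) (f.map_rel (show (0 : Fin 3) ≠ 1 by decide))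
      (f.map_rel (show (1 : Fin 3) ≠ 2 by decide)) (f.map_rel (show (0 : Fin 3) ≠ 2 by decide))
  · have h : ∀ a b, gr a b → (f a).1 ≠ (f b).1 := fun a b e => ad_ne (f.map_rel e)
    exact col4 _ _ (h 0 1 (by decide)) _ (h 1 2 (by decide)) _ (h 2 3 (by decide)) _
      (h 3 4 (by decide)) (h 4 0 (by decide)) (f 10).1 _ (h 5 1 (by decide)) (h 5 4 (by decide))
      (h 10 5 (by decide)) _ (h 6 0 (by decide)) (h 6 2 (by decide)) (h 10 6 (by decide)) _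
      (h 7 1 (by decide)) (h 7 3 (by decide)) (h 10 7 (by decide)) _ (h 8 2 (by decide))
      (h 8 4 (by decide)) (h 10 8 (by decide)) _ (h 9 3 (by decide)) (h 9 0 (by decide))
      (h 10 9 (by decide))

end Pool.Agent.Results.MP_ccca26_co.NotMult
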